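import Pool.Agent.Helper20.QD.St6

/-!
# Project QD, part B (MP_d112a4_gt), module DUN: uniqueness of the barycentre
-/

set_option autoImplicit false

open Filter Topology Matrix Set Metric
open scoped ComplexConjugate

namespace Pool.Agent.Helper39.QD

open Pool.Agent.Helper35.PM Pool.Agent.Helper20.QD

private theorem den_ne {w η : ℂ} (hw : ‖w‖ < 1) (hη : ‖η‖ ≤ 1) : 1 - conj w * η ≠ 0 := by
  intro h
  have h1 : conj w * η = 1 := (sub_eq_zero.1 h).symm
  have h2 : ‖conj w * η‖ < 1 := by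
    rw [norm_mul, Complex.norm_conj]
    calc ‖w‖ * ‖η‖ ≤ ‖w‖ * 1 := mul_le_mul_of_nonneg_left hη (norm_nonneg _)
      _ < 1 := by rwa [mul_one]
  rw [h1, norm_one] at h2
  exact lt_irrefl _ h2

private theorem alg (a b w1 w2 η : ℂ) (hq : 1 - a * w2 ≠ 0) (hq' : 1 - w1 * b ≠ 0)
    (hA1 : 1 - a * η ≠ 0) (hA2 : 1 - b * η ≠ 0) (h0 : 1 - a * w1 ≠ 0) :
    1 - (b - a) / (1 - w1 * b) * ((η - w1) / (1 - a * η)) ≠ 0 ∧
    (b - a) / (1 - w1 * b) * ((η - w1) / (1 - a * η)) -
      (b - a) / (1 - w1 * b) * ((1 - w1 * b) / (1 - a * w2)) * ((η - w2) / (1 - b * η)) =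
    ((w2 - w1) / (1 - a * w2) * ((b - a) / (1 - w1 * b)) -
      ((b - a) / (1 - w1 * b) * ((η - w1) / (1 - a * η))) ^ 2) /
      (1 - (b - a) / (1 - w1 * b) * ((η - w1) / (1 - a * η))) := by
  have hD : 1 - (b - a) / (1 - w1 * b) * ((η - w1) / (1 - a * η)) =
      (1 - a * w1) * (1 - b * η) / ((1 - w1 * b) * (1 - a * η)) := by
    rw [div_mul_div_comm, eq_div_iff (mul_ne_zero hq' hA1), sub_mul, one_mul,
      div_mul_cancel₀ _ (mul_ne_zero hq' hA1)]
    ring
  have hne : 1 - (b - a) / (1 - w1 * b) * ((η - w1) / (1 - a * η)) ≠ 0 := by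
    rw [hD]
    exact div_ne_zero (mul_ne_zero h0 hA2) (mul_ne_zero hq' hA1)
  refine ⟨hne, ?_⟩
  rw [eq_div_iff hne, hD]
  field_simp
  ring

private theorem norm_TT {w η : ℂ} (hw : ‖w‖ < 1) (hη : ‖η‖ = 1) : ‖TT w η‖ = 1 := by
  have h1 := den_ne hw hη.le
  have h2 : conj η * η = 1 := by
    rw [← Complex.normSq_eq_conj_mul_self, Complex.normSq_eq_norm_sq, hη]
    norm_num
  have h3 : ‖1 - conj w * η‖ = ‖η - w‖ := by
    have h4 : conj η * (1 - conj w * η) = conj (η - w) := by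
      rw [map_sub]
      linear_combination -(conj w) * h2
    calc ‖1 - conj w * η‖ = ‖conj η * (1 - conj w * η)‖ := by
          rw [norm_mul, Complex.norm_conj, hη, one_mul]
      _ = ‖η - w‖ := by rw [h4, Complex.norm_conj]
  unfold TT
  rw [norm_div, h3, div_self]
  rw [← h3]
  exact norm_ne_zero_iff.2 h1

private theorem inj_TT {w η η' : ℂ} (hw : ‖w‖ < 1) (hη : ‖η‖ = 1) (hη' : ‖η'‖ = 1)
    (h : TT w η = TT w η') : η = η' := by
  have h1 := den_ne hw hη.le
  have h2 := den_ne hw hη'.le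
  have h0 := den_ne hw hw.le
  unfold TT at h
  rw [div_eq_div_iff h1 h2] at h
  have h3 : (1 - conj w * w) * (η - η') = 0 := by linear_combination h
  exact sub_eq_zero.1 ((mul_eq_zero.1 h3).resolve_left h0)

private theorem re_id (c : ℂ) (hc : 1 - c ≠ 0) :
    ((((‖c‖ ^ 2 : ℝ) : ℂ) - c ^ 2) / (1 - c)).re = 2 * c.im ^ 2 / Complex.normSq (1 - c) := by
  have hn : Complex.normSq (1 - c) ≠ 0 := fun h => hc (Complex.normSq_eq_zero.1 h)
  rw [Complex.div_re, ← add_div]
  congr 1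
  have h1 : ‖c‖ ^ 2 = c.re * c.re + c.im * c.im := by
    rw [← Complex.normSq_eq_norm_sq, Complex.normSq_apply]
  have h2 : (((‖c‖ ^ 2 : ℝ) : ℂ) - c ^ 2).re = 2 * c.im ^ 2 := by
    rw [Complex.sub_re, Complex.ofReal_re, h1, pow_two, Complex.mul_re]
    ring
  have h3 : (((‖c‖ ^ 2 : ℝ) : ℂ) - c ^ 2).im = -(2 * c.re * c.im) := by
    rw [Complex.sub_im, Complex.ofReal_im, pow_two c, Complex.mul_im]
    ring
  rw [h2, h3, Complex.sub_re, Complex.sub_im, Complex.one_re, Complex.one_im]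
  ring

private theorem key {w1 w2 η : ℂ} (h1 : ‖w1‖ < 1) (h2 : ‖w2‖ < 1) (hη : ‖η‖ = 1) :
    (conj (TT w1 w2) * TT w1 η - conj (TT w1 w2) *
      ((1 - w1 * conj w2) / (1 - conj w1 * w2)) * TT w2 η).re =
    2 * (conj (TT w1 w2) * TT w1 η).im ^ 2 / Complex.normSq (1 - conj (TT w1 w2) * TT w1 η) ∧
    1 - conj (TT w1 w2) * TT w1 η ≠ 0 := by
  have hq := den_ne h1 h2.le
  have hq' : 1 - w1 * conj w2 ≠ 0 := by
    have := den_ne h2 h1.le
    rwa [mul_comm] at this
  have hA1 := den_ne h1 hη.le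
  have hA2 := den_ne h2 hη.le
  have h0 := den_ne h1 h1.le
  have hr : conj (TT w1 w2) = (conj w2 - conj w1) / (1 - w1 * conj w2) := by
    unfold TT
    rw [map_div₀, map_sub, map_sub, map_mul, map_one, Complex.conj_conj]
  obtain ⟨a1, a2⟩ := alg (conj w1) (conj w2) w1 w2 η hq hq' hA1 hA2 h0
  have hne : 1 - conj (TT w1 w2) * TT w1 η ≠ 0 := by
    rw [hr]
    exact a1
  refine ⟨?_, hne⟩
  rw [← re_id _ hne]
  congr 1
  have hn : ((‖conj (TT w1 w2) * TT w1 η‖ ^ 2 : ℝ) : ℂ) = TT w1 w2 * conj (TT w1 w2) := by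
    rw [norm_mul, Complex.norm_conj, norm_TT h1 hη, mul_one, Complex.mul_conj,
      Complex.normSq_eq_norm_sq]
  rw [hn, hr]
  exact a2

theorem hDUN (hPIN : StPIN) : StDUN := by
  intro φ hφ z hz w1 hw1 w2 hw2 hF1 hF2
  obtain ⟨hφc, hφi, hφm, -⟩ := hφ
  have hz' : ‖z‖ < 1 := by simpa using hz
  have n1 : ‖w1‖ < 1 := by simpa using hw1
  have n2 : ‖w2‖ < 1 := by simpa using hw2
  by_contra hne
  have hec : Continuous fun t : ℝ => Complex.exp (t * Complex.I) := by fun_prop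
  have hes : ∀ t : ℝ, Complex.exp (t * Complex.I) ∈ SS := by
    intro t
    rw [mem_sphere_zero_iff_norm, Complex.norm_exp_ofReal_mul_I]
  have hηc : Continuous fun t : ℝ => φ (Complex.exp (t * Complex.I)) :=
    hφc.comp_continuous hec hes
  have hηs : ∀ t : ℝ, ‖φ (Complex.exp (t * Complex.I))‖ = 1 := fun t =>
    mem_sphere_zero_iff_norm.1 (hφm (hes t))
  have hPc : Continuous fun t : ℝ => PK z (Complex.exp (t * Complex.I)) := by
    unfold PK
    refine continuous_const.div ((hec.sub continuous_const).norm.pow 2) ?_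
    intro t h
    have h3 : Complex.exp (t * Complex.I) - z = 0 := norm_eq_zero.1 (pow_eq_zero_iff
      (two_ne_zero)|>.1 h)
    have h4 := sub_eq_zero.1 h3
    have h5 := Complex.norm_exp_ofReal_mul_I t
    rw [h4] at h5
    linarith
  have hTc : ∀ w : ℂ, ‖w‖ < 1 → Continuous fun t : ℝ => TT w (φ (Complex.exp (t * Complex.I))) := by
    intro w hw
    unfold TT
    exact (hηc.sub continuous_const).div (continuous_const.sub (continuous_const.mul hηc))
      fun t => den_ne hw (hηs t).le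
  have hI : ∀ w : ℂ, ‖w‖ < 1 → FF φ z w = 0 →
      ∫ t in (0 : ℝ)..(2 * Real.pi), (PK z (Complex.exp (t * Complex.I)) : ℂ) *
        TT w (φ (Complex.exp (t * Complex.I))) = 0 := by
    intro w _ h
    unfold FF PI at h
    refine (mul_eq_zero.1 h).resolve_left (inv_ne_zero ?_)
    exact Complex.ofReal_ne_zero.2 (by positivity)
  have hint : ∀ w : ℂ, ‖w‖ < 1 → IntervalIntegrable (fun t : ℝ =>
      (PK z (Complex.exp (t * Complex.I)) : ℂ) * TT w (φ (Complex.exp (t * Complex.I))))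
      MeasureTheory.volume 0 (2 * Real.pi) := fun w hw =>
    ((Complex.continuous_ofReal.comp hPc).mul (hTc w hw)).intervalIntegrable _ _
  obtain ⟨A, hA⟩ : ∃ A : ℂ, A = conj (TT w1 w2) := ⟨_, rfl⟩
  obtain ⟨B, hB⟩ : ∃ B : ℂ, B = conj (TT w1 w2) * ((1 - w1 * conj w2) / (1 - conj w1 * w2)) :=
    ⟨_, rfl⟩
  obtain ⟨G, hG⟩ : ∃ G : ℝ → ℂ, G = fun t : ℝ =>
      A * ((PK z (Complex.exp (t * Complex.I)) : ℂ) * TT w1 (φ (Complex.exp (t * Complex.I)))) -
      B * ((PK z (Complex.exp (t * Complex.I)) : ℂ) * TT w2 (φ (Complex.exp (t * Complex.I)))) :=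
    ⟨_, rfl⟩
  have hGc : Continuous G := by
    rw [hG]
    exact (continuous_const.mul ((Complex.continuous_ofReal.comp hPc).mul (hTc w1 n1))).sub
      (continuous_const.mul ((Complex.continuous_ofReal.comp hPc).mul (hTc w2 n2)))
  have hG0 : ∫ t in (0 : ℝ)..(2 * Real.pi), G t = 0 := by
    rw [hG, intervalIntegral.integral_sub ((hint w1 n1).const_mul A) ((hint w2 n2).const_mul B),
      intervalIntegral.integral_const_mul, intervalIntegral.integral_const_mul,
      hI w1 n1 hF1, hI w2 n2 hF2, mul_zero, mul_zero, sub_zero]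
  have hGre : ∀ t, (G t).re = PK z (Complex.exp (t * Complex.I)) *
      (2 * (A * TT w1 (φ (Complex.exp (t * Complex.I)))).im ^ 2 /
        Complex.normSq (1 - A * TT w1 (φ (Complex.exp (t * Complex.I))))) := by
    intro t
    have h5 := (key n1 n2 (hηs t)).1
    rw [← hB, ← hA] at h5
    rw [← h5, hG]
    have h6 : A * ((PK z (Complex.exp (t * Complex.I)) : ℂ) *
        TT w1 (φ (Complex.exp (t * Complex.I)))) -
        B * ((PK z (Complex.exp (t * Complex.I)) : ℂ) * TT w2 (φ (Complex.exp (t * Complex.I)))) =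
        (PK z (Complex.exp (t * Complex.I)) : ℂ) * (A * TT w1 (φ (Complex.exp (t * Complex.I))) -
          B * TT w2 (φ (Complex.exp (t * Complex.I)))) := by ring
    change (A * ((PK z (Complex.exp (t * Complex.I)) : ℂ) *
        TT w1 (φ (Complex.exp (t * Complex.I)))) -
        B * ((PK z (Complex.exp (t * Complex.I)) : ℂ) *
          TT w2 (φ (Complex.exp (t * Complex.I))))).re = _
    rw [h6, Complex.re_ofReal_mul]
  have hGre0 : ∫ t in (0 : ℝ)..(2 * Real.pi), (G t).re = 0 := by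
    have h7 := Complex.reCLM.intervalIntegral_comp_comm (hGc.intervalIntegrable (μ :=
      MeasureTheory.volume) 0 (2 * Real.pi))
    rw [hG0] at h7
    simpa using h7
  have hpos : ∀ t : ℝ, 0 < PK z (Complex.exp (t * Complex.I)) := fun t =>
    hPIN.2.2 z hz _ (hes t)
  have hnn : ∀ t, 0 ≤ (G t).re := by
    intro t
    rw [hGre]
    exact mul_nonneg (hpos t).le (div_nonneg (by positivity) (Complex.normSq_nonneg _))
  have h2π : (0 : ℝ) < 2 * Real.pi := by positivity
  have hzero : ∀ t ∈ Icc (0 : ℝ) (2 * Real.pi), (G t).re = 0 := by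
    intro t ht
    by_contra h8
    have h9 := intervalIntegral.integral_pos h2π
      ((Complex.continuous_re.comp hGc).continuousOn) (fun s _ => hnn s)
      ⟨t, ht, lt_of_le_of_ne (hnn t) (Ne.symm h8)⟩
    have h10 : ∫ t in (0 : ℝ)..(2 * Real.pi), (Complex.re ∘ G) t = 0 := hGre0
    rw [h10] at h9
    exact lt_irrefl _ h9
  have hA0 : A ≠ 0 := by
    rw [hA, Ne, map_eq_zero]
    unfold TT
    exact div_ne_zero (sub_ne_zero.2 (Ne.symm hne)) (den_ne n1 n2.le)
  have hsq : ∀ t ∈ Icc (0 : ℝ) (2 * Real.pi),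
      (A * TT w1 (φ (Complex.exp (t * Complex.I)))) ^ 2 = ((‖A‖ ^ 2 : ℝ) : ℂ) := by
    intro t ht
    have h11 := hzero t ht
    rw [hGre] at h11
    have h12 := (mul_eq_zero.1 h11).resolve_left (hpos t).ne'
    have h13 : Complex.normSq (1 - A * TT w1 (φ (Complex.exp (t * Complex.I)))) ≠ 0 := by
      intro h
      have h14 := (key n1 n2 (hηs t)).2
      rw [← hA] at h14
      exact h14 (Complex.normSq_eq_zero.1 h)
    have h15 := (div_eq_zero_iff.1 h12).resolve_right h13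
    have h16 : (A * TT w1 (φ (Complex.exp (t * Complex.I)))).im = 0 := by
      have h17 := (mul_eq_zero.1 h15).resolve_left two_ne_zero
      exact (pow_eq_zero_iff two_ne_zero).1 h17
    obtain ⟨c, hc⟩ : ∃ c : ℂ, c = A * TT w1 (φ (Complex.exp (t * Complex.I))) := ⟨_, rfl⟩
    have h18 : ‖c‖ = ‖A‖ := by
      rw [hc, norm_mul, norm_TT n1 (hηs t), mul_one]
    rw [← hc] at h16 ⊢
    rw [← h18, ← Complex.normSq_eq_norm_sq, ← Complex.mul_conj, pow_two]
    congr 1
    exact (Complex.conj_eq_iff_im.2 h16).symm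
  -- three points
  have hpi := Real.pi_pos
  have e0 := hsq 0 ⟨le_refl _, h2π.le⟩
  have e1 := hsq Real.pi ⟨hpi.le, by linarith⟩
  have e2 := hsq (Real.pi / 2) ⟨by linarith, by linarith⟩
  have v0 : Complex.exp (((0 : ℝ) : ℂ) * Complex.I) = 1 := by simp
  have v1 : Complex.exp ((Real.pi : ℂ) * Complex.I) = -1 := Complex.exp_pi_mul_I
  have v2 : Complex.exp (((Real.pi / 2 : ℝ) : ℂ) * Complex.I) = Complex.I := by
    push_cast
    exact Complex.exp_pi_div_two_mul_I
  rw [v0] at e0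
  rw [v1] at e1
  rw [v2] at e2
  have s0 : (1 : ℂ) ∈ SS := by
    have := hes 0
    rwa [v0] at this
  have s1 : (-1 : ℂ) ∈ SS := by
    have := hes Real.pi
    rwa [v1] at this
  have s2 : Complex.I ∈ SS := by
    have := hes (Real.pi / 2)
    rwa [v2] at this
  have hinj : ∀ p ∈ SS, ∀ q ∈ SS, p ≠ q → TT w1 (φ p) ≠ TT w1 (φ q) := by
    intro p hp q hq hpq h
    exact hpq (hφi hp hq (inj_TT n1 (mem_sphere_zero_iff_norm.1 (hφm hp))
      (mem_sphere_zero_iff_norm.1 (hφm hq)) h))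
  have d01 := hinj 1 s0 (-1) s1 (by norm_num)
  have d02 := hinj 1 s0 Complex.I s2 (by
    intro h
    have := congrArg Complex.re h
    simp at this)
  have d12 := hinj (-1) s1 Complex.I s2 (by
    intro h
    have := congrArg Complex.re h
    simp at this)
  have hsub : ∀ x y : ℂ, (A * x) ^ 2 = ((‖A‖ ^ 2 : ℝ) : ℂ) → (A * y) ^ 2 = ((‖A‖ ^ 2 : ℝ) : ℂ) →
      x ≠ y → x = -y := by
    intro x y hx hy hxy
    have h20 : A ^ 2 * ((x - y) * (x + y)) = 0 := by linear_combination hx - hy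
    have h21 := (mul_eq_zero.1 h20).resolve_left (pow_ne_zero 2 hA0)
    have h22 := (mul_eq_zero.1 h21).resolve_left (sub_ne_zero.2 hxy)
    exact eq_neg_of_add_eq_zero_left h22
  have f1 := hsub _ _ e0 e1 d01
  have f2 := hsub _ _ e0 e2 d02
  apply d12
  have f3 : -(TT w1 (φ (-1))) = -(TT w1 (φ Complex.I)) := f1.symm.trans f2
  exact neg_injective f3

end Pool.Agent.Helper39.QD
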